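import Pool.Agent.LCB.RelDefs

/-!
Machines with bounded memory and an oracle in `NP`, and exponential time with nonadaptive queries
to an oracle in `NP`.
-/

set_option autoImplicit false

namespace Pool.Agent.FSP

open Turing Computability Lib.helper60 MP_92db0f_lc_alg Pool.Agent.LCB

open Classical in
/-- One step of a machine with the oracle `S` and a write-only query tape. The state `m` of the
machine consists of the content `m.1` of the memory and the content `m.2` of the query tape; `xa` is
the pair of the input and the advice. The machine writes the string `w (xa, m.1)` at the end of the
query tape. If `f (xa, m.1)` is true, then it asks the oracle whether the string on the query tape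
belongs to `S`, and the query tape is erased. The new content of the memory is computed by `u` from
`xa`, the answer (`false` if no query has been asked) and the old content of the memory. -/
noncomputable def step (S : Set (List Bool)) (w : (List Bool × List Bool) × List Bool → List Bool)
    (f : (List Bool × List Bool) × List Bool → Bool)
    (u : (List Bool × List Bool) × List Bool → List Bool) (xa : List Bool × List Bool)
    (m : List Bool × List Bool) : List Bool × List Bool :=
  if f (xa, m.1) = true then (u (xa, decide (m.2 ++ w (xa, m.1) ∈ S) :: m.1), [])
  else (u (xa, false :: m.1), m.2 ++ w (xa, m.1))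

/-- The language `L` is decided in space `O(n ^ c)` by a deterministic machine with `O(n ^ c)` bits
of advice and an oracle in `NP` (relative to `O`). On inputs `x` of length `n` the machine starts
with empty memory and empty query tape and makes `N n` steps (see `step`), where `N n` is at most
`2 ^ O(n ^ c)`. During the computation the memory contains at most `O(n ^ c)` bits and the query
tape at most polynomially many; the advice is a string of length `O(n ^ c)`, which depends on `n`
only. The functions `w`, `f` and `u`, which describe one step, and the final decision `d` are
computed by Turing machines in polynomial time. -/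
def InSpace (c : ℕ) (O L : Set (List Bool)) : Prop :=
  ∃ (S : Set (List Bool)) (w : (List Bool × List Bool) × List Bool → List Bool)
    (f : (List Bool × List Bool) × List Bool → Bool)
    (u : (List Bool × List Bool) × List Bool → List Bool)
    (d : (List Bool × List Bool) × List Bool → Bool) (a : ℕ → List Bool) (N : ℕ → ℕ)
    (P : Polynomial ℕ) (k : ℕ),
    InNP O S ∧
    Nonempty (TM2ComputableInPolyTime
      (fun z : (List Bool × List Bool) × List Bool => encPair (encPair z.1, z.2))
        (fun v => v) w) ∧
    Nonempty (TM2ComputableInPolyTime
      (fun z : (List Bool × List Bool) × List Bool => encPair (encPair z.1, z.2))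
        encodeBool f) ∧
    Nonempty (TM2ComputableInPolyTime
      (fun z : (List Bool × List Bool) × List Bool => encPair (encPair z.1, z.2))
        (fun v => v) u) ∧
    Nonempty (TM2ComputableInPolyTime
      (fun z : (List Bool × List Bool) × List Bool => encPair (encPair z.1, z.2))
        encodeBool d) ∧
    (∀ n, (a n).length ≤ k * (n ^ c + 1) ∧ N n ≤ 2 ^ (k * (n ^ c + 1))) ∧
    ∀ x : List Bool,
      (∀ t ≤ N x.length,
        ((step S w f u (x, a x.length))^[t] ([], [])).1.length ≤ k * (x.length ^ c + 1) ∧
        ((step S w f u (x, a x.length))^[t] ([], [])).2.length ≤ P.eval x.length) ∧
      (x ∈ L ↔ d ((x, a x.length),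
        ((step S w f u (x, a x.length))^[N x.length] ([], [])).1) = true)

open Classical in
/-- The language `L` is decided in time `2 ^ O(n ^ c)` with the oracle `O` and `O(n ^ c)` bits of
advice from the answers to `M = 2 ^ (k * (n ^ c + 1))` questions: is there a string `y` of length at
most `P n` with `V (((x, a n), (j, M)), y)`, for `j < M`? Here `x` is the input, `n` its length,
`a n` the advice and `P` a polynomial; the predicate `V` and the final decision `D`, which depends
on the list of all answers, are decided in time polynomial in `n + M` with the oracle `O`. So the
questions may be, for example, queries of polynomial length to a set in `NP`, the query with the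
number `j` being computed from `x`, `a n` and `j` in time `2 ^ O(n ^ c)`. -/
def InTable (c : ℕ) (O L : Set (List Bool)) : Prop :=
  ∃ (V : ((List Bool × List Bool) × (ℕ × ℕ)) × List Bool → Prop)
    (D : (List Bool × List Bool) × List Bool → Prop) (a : ℕ → List Bool) (P : Polynomial ℕ)
    (k : ℕ),
    PolyTime (fun z : ((List Bool × List Bool) × (ℕ × ℕ)) × List Bool =>
      encPair (encPair (encPair z.1.1, encPair (List.replicate z.1.2.1 true,
        List.replicate z.1.2.2 true)), z.2)) O V ∧
    PolyTime (fun z : (List Bool × List Bool) × List Bool => encPair (encPair z.1, z.2)) O D ∧
    (∀ n, (a n).length ≤ k * (n ^ c + 1)) ∧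
    ∀ (x : List Bool) (M : ℕ), M = 2 ^ (k * (x.length ^ c + 1)) →
      (x ∈ L ↔ D ((x, a x.length), (List.range M).map fun j => decide (∃ y : List Bool,
        y.length ≤ P.eval x.length ∧ V (((x, a x.length), (j, M)), y))))

end Pool.Agent.FSP
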