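import Pool.Agent.LCB.RelBrute
import Pool.Agent.FSP.Defs

/-!
Exhaustive search: the languages decided from the answers to queries of polynomial length to an
oracle in `NP` are decided in exponential time.
-/

set_option autoImplicit false
set_option linter.unusedSectionVars false

namespace Pool.Agent.FSP

open Lib.helper60 Function Turing Computability Pool.Agent.LCB
open MP_92db0f_lc hiding answers InNEXP mkC length_mkC PT_mkC answers_take length_answers
open MP_92db0f_lc_alg (answers PolyTime InNEXP join)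
open MP_92db0f_lc_gold (OPT Meas pbMeas natPB gen length_gen length_answers answers_take)
open MP_92db0f_lc_thr (PT_of_TM2 PT_of_TM2' PT_encz PT_encPair')

/-- the code of the inputs of the predicate `V` -/
def encv (z : ((List Bool × List Bool) × (ℕ × ℕ)) × List Bool) : List Bool :=
  encPair (encPair (encPair z.1.1, encPair (List.replicate z.1.2.1 true,
    List.replicate z.1.2.2 true)), z.2)

lemma PT_encv : PT encv :=
  PT_encPair (PT_encPair (PT_encPair'.comp PT.fst.p1) (PT_encPair
    (PT.replicate PT.fst.p2.p1 (PT.const true)) (PT.replicate PT.fst.p2.p2 (PT.const true))))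
      PT.snd

/-- the number of the questions, computed with a cap -/
def Mc (cap k c n : ℕ) : ℕ := p2 cap (k * (n ^ c + 1)) + 1

lemma Mc_eq {cap k c n : ℕ} (h : 2 ^ (k * (n ^ c + 1)) ≤ cap + 1) :
    Mc cap k c n = 2 ^ (k * (n ^ c + 1)) := by
  unfold Mc
  rw [p2_eq' h]
  have : 1 ≤ 2 ^ (k * (n ^ c + 1)) := Nat.one_le_two_pow
  omega

lemma PT_Mc {α : Type} [DEnc α] {cap n : α → ℕ} (hc : PT cap) (hn : PT n) (k c : ℕ) :
    PT (fun a => Mc (cap a) k c (n a)) :=
  PT.nsucc (PT_p2 hc (PT.nmul (PT.const k) (PT.nsucc (PT_npow hn c))))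

/-- exhaustive search for a certificate of length at most `B` among the first `N` strings -/
def src (v : ((List Bool × List Bool) × (ℕ × ℕ)) × List Bool → Bool) (B N : ℕ)
    (z : (List Bool × List Bool) × (ℕ × ℕ)) : Bool :=
  (List.range N).any fun i => decide ((str i).length ≤ B) && v (z, str i)

lemma src_iff {v : ((List Bool × List Bool) × (ℕ × ℕ)) × List Bool → Bool} {B N : ℕ}
    {z : (List Bool × List Bool) × (ℕ × ℕ)} (h : 2 ^ (B + 1) ≤ N + 1) :
    src v B N z = true ↔ ∃ y : List Bool, y.length ≤ B ∧ v (z, y) = true := by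
  unfold src
  rw [List.any_eq_true]
  constructor
  · rintro ⟨i, -, hi⟩
    rw [Bool.and_eq_true, decide_eq_true_eq] at hi
    exact ⟨str i, hi⟩
  · rintro ⟨y, h1, h2⟩
    refine ⟨vl y, ?_, ?_⟩
    · rw [List.mem_range]
      have h3 := vl_lt y
      have h4 : 2 ^ (y.length + 1) ≤ 2 ^ (B + 1) := Nat.pow_le_pow_right (by norm_num) (by omega)
      omega
    · rw [Bool.and_eq_true, decide_eq_true_eq, str_vl]
      exact ⟨h1, h2⟩

/-- **Exhaustive search.** -/
theorem ear_of_brute {O L : Set (List Bool)} {c : ℕ} (hL : InTable c O L) :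
    ∃ e, InEAR O e L := by
  classical
  obtain ⟨V, D, a, P, k, hV, hD, ha, hx⟩ := hL
  obtain ⟨v, hv, hVv⟩ := OPT_of_polyTime PT_encv hV
  obtain ⟨d, hd, hDd⟩ := OPT_of_polyTime PT_encz hD
  obtain ⟨Q, hQ⟩ : ∃ Q : Polynomial ℕ, ∀ n, Q.eval n = P.eval n + 1 + k * (n ^ c + 1) := by
    refine ⟨P + 1 + Polynomial.C k * (Polynomial.X ^ c + 1), fun n => ?_⟩
    simp
  obtain ⟨e, C, hC, -, hle⟩ := Pool.Agent.LCB.poly_le_pow Q
  refine ⟨e, fun w => d ((w.1, w.2.1), (List.range (Mc w.2.2 k c w.1.length)).map fun j =>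
    src v (P.eval w.1.length) w.2.2 ((w.1, w.2.1), (j, Mc w.2.2 k c w.1.length))), a, C, ?_, ?_, ?_⟩
  · have hM : PT (fun w : List Bool × (List Bool × ℕ) => Mc w.2.2 k c w.1.length) :=
      PT_Mc PT.snd.p2 (PT.length PT.fst) k c
    have h1 : OPT O (fun y : (List Bool × (List Bool × ℕ)) × ℕ =>
        src v (P.eval y.1.1.length) y.1.2.2 ((y.1.1, y.1.2.1),
          (y.2, Mc y.1.2.2 k c y.1.1.length))) := by
      unfold src
      refine MP_92db0f_lc_gold.OPT.any (p := fun z : ((List Bool × (List Bool × ℕ)) × ℕ) × ℕ =>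
        decide ((str z.2).length ≤ P.eval z.1.1.1.length) && v (((z.1.1.1, z.1.1.2.1),
          (z.1.2, Mc z.1.1.2.2 k c z.1.1.1.length)), str z.2)) ?_ PT.fst.p2.p2
      exact (OPT.of_PT (PT.nle (PT.length (PT_str PT.snd))
        (PT_peval P (PT.length PT.fst.p1.p1)))).band (hv.comp_PT (PT.pair (PT.pair
          (PT.pair PT.fst.p1.p1 PT.fst.p1.p2.p1) (PT.pair PT.fst.p2 (hM.comp PT.fst.p1)))
            (PT_str PT.snd)))
    have h2 := MP_92db0f_lc_gold.OPT.bits h1 hM
    have h3 : OPT O (fun p : (List Bool × (List Bool × ℕ)) × List Bool =>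
        d ((p.1.1, p.1.2.1), p.2)) :=
      hd.comp_PT (PT.pair (PT.pair PT.fst.p1 PT.fst.p2.p1) PT.snd)
    exact MP_92db0f_lc_gold.OPT.bind h2 h3 hM fun w => by
      change List.length _ ≤ _
      rw [List.length_map, List.length_range]
  · intro n
    have h1 := hle n
    have h2 := ha n
    rw [hQ] at h1
    omega
  · intro x N hN
    have hbig : ∀ m, m ≤ (x.length + C) ^ e → 2 ^ m ≤ N := by
      intro m hm
      exact (Nat.pow_le_pow_right (by norm_num) hm).trans hN
    have h1 := hle x.length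
    rw [hQ] at h1
    have hM : Mc N k c x.length = 2 ^ (k * (x.length ^ c + 1)) :=
      Mc_eq ((hbig _ (by omega)).trans (Nat.le_succ _))
    dsimp only
    rw [hM, hx x _ rfl, hDd]
    obtain ⟨M, hM'⟩ : ∃ M, M = 2 ^ (k * (x.length ^ c + 1)) := ⟨_, rfl⟩
    rw [← hM']
    have h4 : (List.range M).map (fun j => decide (∃ y : List Bool,
          y.length ≤ P.eval x.length ∧ V (((x, a x.length), (j, M)), y))) =
        (List.range M).map fun j => src v (P.eval x.length) N ((x, a x.length), (j, M)) := by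
      apply List.map_congr_left
      intro j _
      rw [Bool.eq_iff_iff, decide_eq_true_iff, src_iff ((hbig _ (by omega)).trans
        (Nat.le_succ _))]
      simp only [hVv]
    rw [h4]

end Pool.Agent.FSP
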