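import Pool.Agent.LCB.RelCens
import Pool.Agent.FSP.Brute

/-!
The number of the questions with the answer yes, over all inputs of the same length, together
with certificates for all of them determines all answers.
-/

set_option autoImplicit false
set_option linter.unusedSectionVars false

namespace Pool.Agent.FSP

open Turing Computability Lib.helper60 Pool.Agent.LCB
open MP_92db0f_lc hiding answers InNEXP mkC length_mkC PT_mkC answers_take length_answers
open MP_92db0f_lc_alg (answers PolyTime InNEXP join)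
open MP_92db0f_lc_gold (OPT Meas pbMeas natPB gen length_gen length_answers answers_take)
open MP_92db0f_lc_thr (nthC mkC nthC_mkC length_mkC PT_nthC PT_of_TM2 PT_of_TM2' PT_encz)

/-- the input and the number of the query in an entry -/
def ent (s : List Bool) : List Bool × ℕ := ((unpair s).1, (unpair (unpair s).2).1.length)

/-- the certificate in an entry -/
def cer (s : List Bool) : List Bool := (unpair (unpair s).2).2

/-- an entry -/
def mkE (x : List Bool) (j : ℕ) (y : List Bool) : List Bool :=
  encPair (x, encPair (List.replicate j true, y))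

lemma ent_mkE (x : List Bool) (j : ℕ) (y : List Bool) : ent (mkE x j y) = (x, j) := by
  unfold ent mkE
  simp only [unpair_enc, List.length_replicate]

lemma cer_mkE (x : List Bool) (j : ℕ) (y : List Bool) : cer (mkE x j y) = y := by
  unfold cer mkE
  simp only [unpair_enc]

lemma length_mkE (x : List Bool) (j : ℕ) (y : List Bool) :
    (mkE x j y).length = 2 * x.length + 2 + (2 * j + 2 + y.length) := by
  unfold mkE
  rw [length_encPair, length_encPair, List.length_replicate]

/-- two entries belong to the same query -/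
def eqe (s s' : List Bool) : Bool :=
  decide ((ent s).1 = (ent s').1) && decide ((ent s).2 = (ent s').2)

lemma eqe_iff (s s' : List Bool) : eqe s s' = true ↔ ent s = ent s' := by
  unfold eqe
  rw [Bool.and_eq_true, decide_eq_true_eq, decide_eq_true_eq, Prod.ext_iff]

section

variable (v : ((List Bool × List Bool) × (ℕ × ℕ)) × List Bool → Bool) (B : ℕ)

/-- the check of an entry -/
def okE (a : List Bool) (n M : ℕ) (s : List Bool) : Bool :=
  decide ((ent s).1.length = n) && (decide ((ent s).2 < M) &&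
    (decide ((cer s).length ≤ B) && v ((((ent s).1, a), ((ent s).2, M)), cer s)))

/-- the questions with the answer yes, over all inputs of length `n` -/
def Yes (a : List Bool) (n M : ℕ) : Set (List Bool × ℕ) :=
  {z | z.1.length = n ∧ z.2 < M ∧ ∃ y : List Bool, y.length ≤ B ∧
    v (((z.1, a), (z.2, M)), y) = true}

lemma Yes_sub (a : List Bool) (n M : ℕ) : Yes v B a n M ⊆
    (((Finset.range (2 ^ (n + 1))) ×ˢ (Finset.range M)).image
      fun z : ℕ × ℕ => (str z.1, z.2) : Set (List Bool × ℕ)) := by
  classical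
  rintro ⟨x, j⟩ ⟨h1, h2, -⟩
  rw [Finset.coe_image]
  refine ⟨(vl x, j), ?_, by dsimp only; rw [str_vl]⟩
  rw [Finset.mem_coe, Finset.mem_product, Finset.mem_range, Finset.mem_range]
  have h3 := vl_lt x
  dsimp only at h1 h2 ⊢
  rw [h1] at h3
  exact ⟨by omega, h2⟩

lemma Yes_finite (a : List Bool) (n M : ℕ) : (Yes v B a n M).Finite := by
  classical
  exact (Finset.finite_toSet _).subset (Yes_sub v B a n M)

lemma ncard_Yes (a : List Bool) (n M : ℕ) : (Yes v B a n M).ncard ≤ 2 ^ (n + 1) * M := by
  classical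
  have h1 := Set.ncard_le_ncard (Yes_sub v B a n M) (Finset.finite_toSet _)
  rw [Set.ncard_coe_finset] at h1
  refine h1.trans (Finset.card_image_le.trans ?_)
  rw [Finset.card_product, Finset.card_range, Finset.card_range]

/-- the check of a list of entries -/
def chkY (a : List Bool) (n M t : ℕ) (y : List Bool) : Bool :=
  decide (t ≤ y.length) && ((List.range t).all fun j =>
    okE v B a n M (nthC y j) && ((List.range j).all fun i => !eqe (nthC y i) (nthC y j)))

variable {v B}

lemma okE_sound {a : List Bool} {n M : ℕ} {s : List Bool} (h : okE v B a n M s = true) :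
    ent s ∈ Yes v B a n M := by
  unfold okE at h
  simp only [Bool.and_eq_true, decide_eq_true_eq] at h
  obtain ⟨h1, h2, h3, h4⟩ := h
  exact ⟨h1, h2, _, h3, h4⟩

lemma okE_intro {a : List Bool} {n M : ℕ} {z : List Bool × ℕ} (h : z ∈ Yes v B a n M) :
    ∃ s : List Bool, s.length ≤ 2 * n + 2 + (2 * M + 2 + B) ∧ ent s = z ∧
      okE v B a n M s = true := by
  obtain ⟨x, j⟩ := z
  obtain ⟨h1, h2, y, h4, h5⟩ := h
  dsimp only at h1 h2 h5
  refine ⟨mkE x j y, ?_, ent_mkE x j y, ?_⟩
  · rw [length_mkE]
    omega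
  · unfold okE
    simp only [ent_mkE, cer_mkE, Bool.and_eq_true, decide_eq_true_eq]
    exact ⟨h1, h2, h4, h5⟩

lemma chkY_iff {a : List Bool} {n M t : ℕ} {y : List Bool} :
    chkY v B a n M t y = true ↔ t ≤ y.length ∧
      ∀ j < t, okE v B a n M (nthC y j) = true ∧ ∀ i < j, ent (nthC y i) ≠ ent (nthC y j) := by
  unfold chkY
  simp only [Bool.and_eq_true, decide_eq_true_eq, List.all_eq_true, List.mem_range,
    Bool.not_eq_true', ← Bool.not_eq_true, eqe_iff, ne_eq]

lemma chkY_complete {a : List Bool} {n M : ℕ} {y : List Bool}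
    (h : chkY v B a n M (Yes v B a n M).ncard y = true) :
    ∀ z ∈ Yes v B a n M, ∃ j < (Yes v B a n M).ncard, ent (nthC y j) = z := by
  classical
  rw [chkY_iff] at h
  obtain ⟨f, hf⟩ : ∃ f : ℕ → List Bool × ℕ, f = fun j => ent (nthC y j) := ⟨_, rfl⟩
  have hinj : Set.InjOn f (Finset.range (Yes v B a n M).ncard : Set ℕ) := by
    intro i hi j hj hij
    rw [Finset.mem_coe, Finset.mem_range] at hi hj
    rw [hf] at hij
    rcases lt_trichotomy i j with h2 | h2 | h2
    · exact absurd hij ((h.2 j hj).2 i h2)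
    · exact h2
    · exact absurd hij.symm ((h.2 i hi).2 j h2)
  have hsub : ((Finset.range (Yes v B a n M).ncard).image f : Set (List Bool × ℕ)) ⊆
      Yes v B a n M := by
    intro z hz
    rw [Finset.coe_image] at hz
    obtain ⟨j, hj, rfl⟩ := hz
    rw [Finset.mem_coe, Finset.mem_range] at hj
    rw [hf]
    exact okE_sound (h.2 j hj).1
  have hcard : ((Finset.range (Yes v B a n M).ncard).image f).card = (Yes v B a n M).ncard := by
    rw [Finset.card_image_of_injOn hinj, Finset.card_range]
  have heq := Set.eq_of_subset_of_ncard_le hsub (by rw [Set.ncard_coe_finset, hcard])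
    (Yes_finite v B a n M)
  intro z hz
  rw [← heq, Finset.coe_image] at hz
  obtain ⟨j, hj, rfl⟩ := hz
  rw [Finset.mem_coe, Finset.mem_range] at hj
  exact ⟨j, hj, by rw [hf]⟩

lemma exists_chkY {a : List Bool} {n M : ℕ} : ∃ y : List Bool,
    y.length ≤ (Yes v B a n M).ncard * (2 * (2 * n + 2 + (2 * M + 2 + B)) + 2) ∧
      chkY v B a n M (Yes v B a n M).ncard y = true := by
  classical
  have hfin := Yes_finite v B a n M
  obtain ⟨l, hl⟩ : ∃ l, l = hfin.toFinset.toList := ⟨_, rfl⟩
  obtain ⟨D, hD⟩ : ∃ D, D = (Yes v B a n M).ncard := ⟨_, rfl⟩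
  have hlen : l.length = D := by
    rw [hl, Finset.length_toList, hD, Set.ncard_eq_toFinset_card _ hfin]
  have hmem' : ∀ z ∈ l, z ∈ Yes v B a n M := by
    intro z hz
    rw [hl, Finset.mem_toList, Set.Finite.mem_toFinset] at hz
    exact hz
  have hmem : ∀ j < D, l.getD j ([], 0) ∈ Yes v B a n M := by
    intro j hj
    rw [List.getD_eq_getElem _ _ (by omega)]
    exact hmem' _ (List.getElem_mem _)
  have hnodup : l.Nodup := by rw [hl]; exact Finset.nodup_toList _
  have hex : ∀ j, ∃ s : List Bool, s.length ≤ 2 * n + 2 + (2 * M + 2 + B) ∧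
      (j < D → ent s = l.getD j ([], 0) ∧ okE v B a n M s = true) := by
    intro j
    by_cases hj : j < D
    · obtain ⟨s, h2, h3, h4⟩ := okE_intro (hmem j hj)
      exact ⟨s, h2, fun _ => ⟨h3, h4⟩⟩
    · exact ⟨[], by simp, fun h => absurd h hj⟩
  choose s hs1 hs2 using hex
  rw [← hD]
  have hnth : ∀ j < D, nthC (mkC s D) j = s j := fun j hj => nthC_mkC D _ j hj
  have hlen2 := length_mkC D s
  refine ⟨mkC s D, ?_, ?_⟩
  · rw [hlen2]
    have h1 := Finset.sum_le_card_nsmul (Finset.range D) (fun j => 2 * (s j).length + 2)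
      (2 * (2 * n + 2 + (2 * M + 2 + B)) + 2) (fun j _ => by
        have h2 := hs1 j
        omega)
    rw [Finset.card_range, smul_eq_mul] at h1
    exact h1
  · rw [chkY_iff]
    refine ⟨?_, ?_⟩
    · rw [hlen2]
      have h1 := Finset.card_nsmul_le_sum (Finset.range D)
        (fun j => 2 * (s j).length + 2) 1 (fun j _ => by omega)
      rw [Finset.card_range, smul_eq_mul, mul_one] at h1
      exact h1
    · intro j hj
      rw [hnth j hj]
      refine ⟨(hs2 j hj).2, ?_⟩
      intro i hi
      rw [hnth i (by omega), (hs2 j hj).1, (hs2 i (by omega)).1,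
        List.getD_eq_getElem _ _ (by omega), List.getD_eq_getElem _ _ (by omega)]
      intro h8
      have := (List.Nodup.getElem_inj_iff hnodup).mp h8
      omega

/-- the table of the answers, from a list of entries -/
def tab (x : List Bool) (M t : ℕ) (y : List Bool) : List Bool :=
  (List.range M).map fun j => (List.range t).any fun i =>
    decide ((ent (nthC y i)).1 = x) && decide ((ent (nthC y i)).2 = j)

open Classical in
lemma tab_eq {x a : List Bool} {M : ℕ} {y : List Bool}
    (h : chkY v B a x.length M (Yes v B a x.length M).ncard y = true) :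
    tab x M (Yes v B a x.length M).ncard y = (List.range M).map fun j =>
      decide (∃ y : List Bool, y.length ≤ B ∧ v (((x, a), (j, M)), y) = true) := by
  unfold tab
  apply List.map_congr_left
  intro j hj
  rw [List.mem_range] at hj
  rw [Bool.eq_iff_iff, decide_eq_true_iff, List.any_eq_true]
  constructor
  · rintro ⟨i, hi, h1⟩
    rw [List.mem_range] at hi
    rw [Bool.and_eq_true, decide_eq_true_eq, decide_eq_true_eq] at h1
    have h2 := okE_sound ((chkY_iff.1 h).2 i hi).1
    have h3 := h2.2.2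
    rw [h1.1, h1.2] at h3
    exact h3
  · intro h1
    obtain ⟨i, hi, h2⟩ := chkY_complete h (x, j) ⟨rfl, hj, h1⟩
    refine ⟨i, List.mem_range.2 hi, ?_⟩
    rw [h2]
    simp

end

/-! ### polynomial time with an oracle -/

section

variable {O : Set (List Bool)} {v : ((List Bool × List Bool) × (ℕ × ℕ)) × List Bool → Bool}
  {α : Type} [DEnc α] [Meas α]

lemma PT_ent {s : α → List Bool} (hs : PT s) : PT (fun b => ent (s b)) :=
  PT.pair (PT_unpair.comp hs).p1 (PT.length (PT_unpair.comp (PT_unpair.comp hs).p2).p1)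

lemma PT_cer {s : α → List Bool} (hs : PT s) : PT (fun b => cer (s b)) :=
  (PT_unpair.comp (PT_unpair.comp hs).p2).p2

lemma PT_eqe {s s' : α → List Bool} (hs : PT s) (hs' : PT s') :
    PT (fun b => eqe (s b) (s' b)) :=
  PT.band (PT_leq (PT_ent hs).p1 (PT_ent hs').p1) (PT.neq (PT_ent hs).p2 (PT_ent hs').p2)

lemma OPT_okE (hv : OPT O v) {a : α → List Bool} {n M B : α → ℕ} {s : α → List Bool}
    (ha : PT a) (hn : PT n) (hM : PT M) (hB : PT B) (hs : PT s) :
    OPT O (fun b => okE v (B b) (a b) (n b) (M b) (s b)) := by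
  unfold okE
  have he := PT_ent hs
  exact (OPT.of_PT (PT.neq (PT.length he.p1) hn)).band ((OPT.of_PT (PT.nlt he.p2 hM)).band
    ((OPT.of_PT (PT.nle (PT.length (PT_cer hs)) hB)).band (hv.comp_PT (PT.pair
      (PT.pair (PT.pair he.p1 ha) (PT.pair he.p2 hM)) (PT_cer hs)))))

lemma OPT_chkY (hv : OPT O v) {a : α → List Bool} {n M t B : α → ℕ} {y : α → List Bool}
    (ha : PT a) (hn : PT n) (hM : PT M) (hB : PT B) (ht : PT t) (hy : PT y) :
    OPT O (fun b => chkY v (B b) (a b) (n b) (M b) (t b) (y b)) := by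
  unfold chkY
  refine (OPT.of_PT (PT.nle ht (PT.length hy))).band ?_
  refine MP_92db0f_lc_gold.OPT.all (p := fun w : α × ℕ =>
    okE v (B w.1) (a w.1) (n w.1) (M w.1) (nthC (y w.1) w.2) &&
      ((List.range w.2).all fun i => !eqe (nthC (y w.1) i) (nthC (y w.1) w.2))) ?_ ht
  have hj : PT (fun w : α × ℕ => nthC (y w.1) w.2) := PT_nthC (hy.comp PT.fst) PT.snd
  refine (OPT_okE hv (ha.comp PT.fst) (hn.comp PT.fst) (hM.comp PT.fst) (hB.comp PT.fst)
    hj).band (OPT.of_PT ?_)
  refine PT.all (p := fun w : (α × ℕ) × ℕ => !eqe (nthC (y w.1.1) w.2)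
    (nthC (y w.1.1) w.1.2)) (PT.range PT.snd) ?_
  exact PT.bnot (PT_eqe (PT_nthC (hy.comp PT.fst.p1) PT.snd) (hj.comp PT.fst))

omit [Meas α] in
lemma PT_tab {x : α → List Bool} {M t : α → ℕ} {y : α → List Bool} (hx : PT x) (hM : PT M)
    (ht : PT t) (hy : PT y) : PT (fun b => tab (x b) (M b) (t b) (y b)) := by
  unfold tab
  refine PT.map (g := fun w : α × ℕ => (List.range (t w.1)).any fun i =>
    decide ((ent (nthC (y w.1) i)).1 = x w.1) && decide ((ent (nthC (y w.1) i)).2 = w.2))
    (PT.range hM) ?_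
  refine PT.any (p := fun w : (α × ℕ) × ℕ =>
    decide ((ent (nthC (y w.1.1) w.2)).1 = x w.1.1) &&
      decide ((ent (nthC (y w.1.1) w.2)).2 = w.1.2)) (PT.range (ht.comp PT.fst)) ?_
  have he : PT (fun w : (α × ℕ) × ℕ => ent (nthC (y w.1.1) w.2)) := by
    have hn : PT (fun w : (α × ℕ) × ℕ => nthC (y w.1.1) w.2) :=
      PT_nthC (hy.comp PT.fst.p1) PT.snd
    exact PT.pair (PT_unpair.comp hn).p1 (PT.length (PT_unpair.comp (PT_unpair.comp hn).p2).p1)
  exact PT.band (PT_leq he.p1 (hx.comp PT.fst.p1)) (PT.neq he.p2 PT.fst.p2)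

end

end Pool.Agent.FSP
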