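import Pool.Agent.FSP.Brute

/-!
Machines with bounded memory ask few different queries: they are simulated in exponential time with
nonadaptive queries.
-/

set_option autoImplicit false
set_option linter.unusedSectionVars false

namespace Pool.Agent.FSP

open Lib.helper60 Function Turing Computability Pool.Agent.LCB
open MP_92db0f_lc hiding answers InNEXP mkC length_mkC PT_mkC answers_take length_answers
open MP_92db0f_lc_alg (answers PolyTime InNEXP join)
open MP_92db0f_lc_gold (OPT Meas pbMeas natPB gen length_gen length_answers answers_take)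
open MP_92db0f_lc_thr (PT_of_TM2 PT_of_TM2' PT_encz PT_encPair')

/-! ### polynomial time -/

/-- iteration of a function with a parameter -/
lemma PT_iter {ι σ : Type} [DEnc ι] [DEnc σ] {n : ι → ℕ} {init : ι → σ} {g : ι × σ → σ}
    (hn : PT n) (hi : PT init) (hg : PT g) {t : ι → ℕ} (ht : PB t)
    (hb : ∀ x i, tsize ((fun s => g (x, s))^[i] (init x)) ≤ t x) :
    PT (fun x => (fun s => g (x, s))^[n x] (init x)) := by
  have h1 : ∀ (x : ι) (l : List ℕ) (s : σ),
      l.foldl (fun s _ => g (x, s)) s = (fun s => g (x, s))^[l.length] s := by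
    intro x l
    induction l with
    | nil => intro s; rfl
    | cons b l ih => intro s; rw [List.foldl_cons, ih, List.length_cons, iterate_succ_apply]
  refine (PT.foldl (l := fun x => List.range (n x)) (g := fun z : ι × σ × ℕ => g (z.1, z.2.1))
    (PT.range hn) hi (hg.comp (PT.pair PT.fst PT.snd.p1)) ⟨t, ht, ?_⟩).congr fun x => ?_
  · intro x l₁ l₂ _
    rw [h1]
    exact hb x _
  · rw [h1, List.length_range]

/-- predicates computed in polynomial time with an oracle -/
lemma polyTime_of_OPT {α : Type} [DEnc α] [Meas α] {O : Set (List Bool)} {enc : α → List Bool}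
    {dec : List Bool → α} (hdec : PT dec) (hde : ∀ a, dec (enc a) = a)
    (hm : ∀ a, Meas.m a ≤ (enc a).length) {f : α → Bool} (hf : OPT O f) :
    PolyTime enc O (fun a => f a = true) := by
  obtain ⟨q, g, N, hq, hg, hN, hf⟩ := hf
  obtain ⟨P, hP⟩ := pbMeas (natPB hN)
  have hd : PT (fun w : List Bool => (dec (unpair w).1, (unpair w).2)) :=
    PT.pair (hdec.comp PT_unpair.p1) PT_unpair.p2
  refine ⟨q, fun z => g (z.1, z.2.take (N z.1)), P,
    PT.toTM2 (F := fun w => q (dec (unpair w).1, (unpair w).2)) (hq.comp hd) fun z => ?_,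
    PT.decider (F := fun w => g (dec (unpair w).1, (unpair w).2.take (N (dec (unpair w).1))))
      ((hg.comp (PT.pair PT.fst (PT_take (hN.comp PT.fst) PT.snd))).comp hd) fun z => ?_,
    fun a => ?_⟩
  · rw [unpair_enc]
    dsimp only
    rw [hde]
  · rw [unpair_enc]
    dsimp only
    rw [hde]
  · beta_reduce
    rw [hf a, answers_take O q a _ _ (hP a _ (hm a))]

/-- decoding -/
def decv (w : List Bool) : ((List Bool × List Bool) × (ℕ × ℕ)) × List Bool :=
  ((unpair (unpair (unpair w).1).1, ((unpair (unpair (unpair w).1).2).1.length,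
    (unpair (unpair (unpair w).1).2).2.length)), (unpair w).2)

lemma decv_encv (z : ((List Bool × List Bool) × (ℕ × ℕ)) × List Bool) : decv (encv z) = z := by
  unfold decv encv
  simp only [unpair_enc, List.length_replicate]

lemma PT_decv : PT decv := by
  have u1 : PT (fun w : List Bool => unpair (unpair w).1) := PT_unpair.comp PT_unpair.p1
  have u2 : PT (fun w : List Bool => unpair (unpair (unpair w).1).2) := PT_unpair.comp u1.p2
  exact PT.pair (PT.pair (PT_unpair.comp u1.p1) (PT.pair (PT.length u2.p1) (PT.length u2.p2)))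
    PT_unpair.p2

lemma meas_encv (z : ((List Bool × List Bool) × (ℕ × ℕ)) × List Bool) :
    Meas.m z ≤ (encv z).length := by
  obtain ⟨⟨⟨x, a⟩, j, M⟩, y⟩ := z
  change ((x.length + a.length + 2) + (j + M + 2) + 2) + y.length + 2 ≤
    (encPair (encPair (encPair (x, a), encPair (List.replicate j true,
      List.replicate M true)), y)).length
  rw [length_encPair, length_encPair, length_encPair, length_encPair, List.length_replicate,
    List.length_replicate]
  omega

lemma meas_encz (z : (List Bool × List Bool) × List Bool) :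
    Meas.m z ≤ (encPair (encPair z.1, z.2)).length := by
  obtain ⟨⟨x, a⟩, y⟩ := z
  change (x.length + a.length + 2) + y.length + 2 ≤ (encPair (encPair (x, a), y)).length
  rw [length_encPair, length_encPair]
  omega

/-! ### the simulation -/

section

variable (w u : (List Bool × List Bool) × List Bool → List Bool)
  (f : (List Bool × List Bool) × List Bool → Bool) (B R : ℕ)

/-- one step of the machine between two queries; it stops when a query is asked -/
def wlk (xa : List Bool × List Bool) (m : List Bool × List Bool) : List Bool × List Bool :=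
  bif f (xa, m.1) then m
  else ((u (xa, false :: m.1)).take B, (m.2 ++ w (xa, m.1)).take R)

/-- the query that is asked next, if the memory contains `m₀` and the query tape is empty -/
def qry (xa : List Bool × List Bool) (T : ℕ) (m₀ : List Bool) : List Bool :=
  ((wlk w u f B R xa)^[T] (m₀, [])).2 ++ w (xa, ((wlk w u f B R xa)^[T] (m₀, [])).1)

/-- one step of the machine, where the answers are looked up in the table `l`; the second part of
the state is the content of the memory after the previous query -/
def stepL (xa : List Bool × List Bool) (l : List Bool) (m : List Bool × List Bool) :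
    List Bool × List Bool :=
  bif f (xa, m.1) then ((u (xa, l.getD (vlc l.length m.2) false :: m.1)).take B,
    (u (xa, l.getD (vlc l.length m.2) false :: m.1)).take B)
  else ((u (xa, false :: m.1)).take B, m.2)

variable {w u f B R}

lemma wlk_bound (xa : List Bool × List Bool) (m₀ : List Bool) (i : ℕ) :
    ((wlk w u f B R xa)^[i] (m₀, [])).1.length ≤ m₀.length + B ∧
      ((wlk w u f B R xa)^[i] (m₀, [])).2.length ≤ R := by
  induction i with
  | zero => exact ⟨Nat.le_add_right _ _, Nat.zero_le _⟩
  | succ i ih =>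
    rw [iterate_succ_apply']
    obtain ⟨s, hs⟩ : ∃ s, s = (wlk w u f B R xa)^[i] (m₀, []) := ⟨_, rfl⟩
    rw [← hs] at ih ⊢
    unfold wlk
    cases f (xa, s.1) with
    | true => exact ih
    | false =>
      rw [cond_false]
      exact ⟨(List.length_take_le _ _).trans (Nat.le_add_left _ _), List.length_take_le _ _⟩

lemma stepL_bound (xa : List Bool × List Bool) (l : List Bool) (i : ℕ) :
    ((stepL u f B xa l)^[i] ([], [])).1.length ≤ B ∧
      ((stepL u f B xa l)^[i] ([], [])).2.length ≤ B := by
  induction i with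
  | zero => exact ⟨Nat.zero_le _, Nat.zero_le _⟩
  | succ i ih =>
    rw [iterate_succ_apply']
    obtain ⟨s, hs⟩ : ∃ s, s = (stepL u f B xa l)^[i] ([], []) := ⟨_, rfl⟩
    rw [← hs] at ih ⊢
    unfold stepL
    cases f (xa, s.1) with
    | true => exact ⟨List.length_take_le _ _, List.length_take_le _ _⟩
    | false => exact ⟨List.length_take_le _ _, ih.2⟩

open Classical in
/-- **The simulation is correct.** -/
lemma stepL_eq {S : Set (List Bool)} {xa : List Bool × List Bool} {N T : ℕ} {l : List Bool}
    (hb : ∀ t ≤ N, ((step S w f u xa)^[t] ([], [])).1.length ≤ B ∧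
      ((step S w f u xa)^[t] ([], [])).2.length ≤ R) (hT : N ≤ T)
    (hl : ∀ m₀ : List Bool, m₀.length ≤ B →
      l.getD (vlc l.length m₀) false = decide (qry w u f B R xa T m₀ ∈ S)) :
    ∀ t ≤ N, ((stepL u f B xa l)^[t] ([], [])).1 = ((step S w f u xa)^[t] ([], [])).1 ∧
      ∃ r ≤ t, (wlk w u f B R xa)^[r] (((stepL u f B xa l)^[t] ([], [])).2, []) =
        (step S w f u xa)^[t] ([], []) := by
  intro t
  induction t with
  | zero => exact fun _ => ⟨rfl, 0, le_rfl, rfl⟩
  | succ t ih =>
    intro ht
    obtain ⟨h1, r, hr, h2⟩ := ih (by omega)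
    obtain ⟨hb1, hb2⟩ := hb (t + 1) ht
    have hB0 := (stepL_bound (u := u) (f := f) (B := B) xa l t).2
    rw [iterate_succ_apply'] at hb1 hb2
    rw [iterate_succ_apply', iterate_succ_apply']
    obtain ⟨s, hs⟩ : ∃ s, s = (stepL u f B xa l)^[t] ([], []) := ⟨_, rfl⟩
    obtain ⟨m, hm⟩ : ∃ m, m = (step S w f u xa)^[t] ([], []) := ⟨_, rfl⟩
    rw [← hs] at h1 h2 hB0 ⊢
    rw [← hm] at h1 h2 hb1 hb2 ⊢
    unfold step at hb1 hb2 ⊢
    unfold stepL
    rw [h1]
    cases hf : f (xa, m.1) with
    | true =>
      rw [if_pos hf] at hb1 hb2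
      simp only [if_true, cond_true]
      have h3 : ∀ i, (wlk w u f B R xa)^[i] m = m := by
        intro i
        induction i with
        | zero => rfl
        | succ i ih =>
          rw [iterate_succ_apply, show wlk w u f B R xa m = m by unfold wlk; rw [hf, cond_true],
            ih]
      have h4 : qry w u f B R xa T s.2 = m.2 ++ w (xa, m.1) := by
        unfold qry
        have h5 : (wlk w u f B R xa)^[T] (s.2, []) = m := by
          rw [show T = (T - r) + r by omega, iterate_add_apply, h2, h3]
        rw [h5]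
      rw [hl s.2 hB0, h4]
      dsimp only at hb1
      rw [List.take_of_length_le hb1]
      exact ⟨rfl, 0, Nat.zero_le _, rfl⟩
    | false =>
      rw [if_neg (by rw [hf]; decide)] at hb1 hb2
      simp only [Bool.false_eq_true, if_false, cond_false]
      dsimp only at hb1 hb2
      rw [List.take_of_length_le hb1]
      refine ⟨rfl, r + 1, by omega, ?_⟩
      rw [iterate_succ_apply', h2]
      unfold wlk
      rw [hf, cond_false, List.take_of_length_le hb1, List.take_of_length_le hb2]

end

/-! ### the simulation in polynomial time -/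

section

variable {w u : (List Bool × List Bool) × List Bool → List Bool}
  {f : (List Bool × List Bool) × List Bool → Bool} {α : Type} [DEnc α]

lemma tsize_pair_le {m : List Bool × List Bool} {t : ℕ} (h1 : m.1.length ≤ t)
    (h2 : m.2.length ≤ t) : tsize m ≤ 8 * (t + t + 3) := by
  have h3 := Meas.bd m
  have h4 : Meas.m m = m.1.length + m.2.length + 2 := rfl
  omega

lemma PT_wlk (hw : PT w) (hu : PT u) (hf : PT f) {xa m : α → List Bool × List Bool}
    {B R : α → ℕ} (hx : PT xa) (hB : PT B) (hR : PT R) (hm : PT m) :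
    PT (fun z => wlk w u f (B z) (R z) (xa z) (m z)) := by
  unfold wlk
  exact PT.cond (hf.comp (PT.pair hx hm.p1)) hm (PT.pair (PT_take hB (hu.comp (PT.pair hx
    (PT.cons (PT.const false) hm.p1)))) (PT_take hR (PT.append hm.p2 (hw.comp
      (PT.pair hx hm.p1)))))

lemma PT_qry (hw : PT w) (hu : PT u) (hf : PT f) {xa : α → List Bool × List Bool}
    {B R T : α → ℕ} {m₀ : α → List Bool} (hx : PT xa) (hB : PT B) (hR : PT R) (hT : PT T)
    (hm : PT m₀) : PT (fun z => qry w u f (B z) (R z) (xa z) (T z) (m₀ z)) := by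
  have h1 : PT (fun z => (wlk w u f (B z) (R z) (xa z))^[T z] (m₀ z, [])) := by
    refine PT_iter (g := fun y : α × (List Bool × List Bool) =>
      wlk w u f (B y.1) (R y.1) (xa y.1) y.2) hT (PT.pair hm (PT.const []))
      (PT_wlk hw hu hf (hx.comp PT.fst) (hB.comp PT.fst) (hR.comp PT.fst) PT.snd)
      (t := fun z => 8 * (((m₀ z).length + B z + R z) + ((m₀ z).length + B z + R z) + 3))
      (natPB (PT.nmul (PT.const 8) (PT.nadd (PT.nadd (PT.nadd (PT.nadd (PT.length hm) hB) hR)
        (PT.nadd (PT.nadd (PT.length hm) hB) hR)) (PT.const 3)))) ?_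
    intro z i
    obtain ⟨h2, h3⟩ := wlk_bound (w := w) (u := u) (f := f) (B := B z) (R := R z) (xa z) (m₀ z) i
    exact tsize_pair_le (h2.trans (by omega)) (h3.trans (by omega))
  unfold qry
  exact PT.append h1.p2 (hw.comp (PT.pair hx h1.p1))

lemma PT_stepL (hu : PT u) (hf : PT f) {xa m : α → List Bool × List Bool} {l : α → List Bool}
    {B : α → ℕ} (hx : PT xa) (hB : PT B) (hl : PT l) (hm : PT m) :
    PT (fun z => stepL u f (B z) (xa z) (l z) (m z)) := by
  unfold stepL
  have h1 : PT (fun z => (u (xa z, (l z).getD (vlc (l z).length (m z).2) false ::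
      (m z).1)).take (B z)) :=
    PT_take hB (hu.comp (PT.pair hx (PT.cons (PT.getD hl (PT_vlc (PT.length hl) hm.p2)
      (PT.const false)) hm.p1)))
  exact PT.cond (hf.comp (PT.pair hx hm.p1)) (PT.pair h1 h1) (PT.pair (PT_take hB
    (hu.comp (PT.pair hx (PT.cons (PT.const false) hm.p1)))) hm.p2)

lemma PT_stepL_iter (hu : PT u) (hf : PT f) {xa : α → List Bool × List Bool}
    {l : α → List Bool} {B N : α → ℕ} (hx : PT xa) (hB : PT B) (hl : PT l) (hN : PT N) :
    PT (fun z => (stepL u f (B z) (xa z) (l z))^[N z] ([], [])) := by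
  refine PT_iter (g := fun y : α × (List Bool × List Bool) =>
    stepL u f (B y.1) (xa y.1) (l y.1) y.2) hN (PT.const ([], []))
    (PT_stepL hu hf (hx.comp PT.fst) (hB.comp PT.fst) (hl.comp PT.fst) PT.snd)
    (t := fun z => 8 * (B z + B z + 3)) (natPB (PT.nmul (PT.const 8) (PT.nadd (PT.nadd hB hB)
      (PT.const 3)))) ?_
  intro z i
  obtain ⟨h2, h3⟩ := stepL_bound (u := u) (f := f) (B := B z) (xa z) (l z) i
  exact tsize_pair_le h2 h3

end

/-- **Machines with bounded memory.** -/
theorem table_of_space {O L : Set (List Bool)} {c : ℕ} (hL : InSpace c O L) :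
    InTable c O L := by
  classical
  obtain ⟨S, w, f, u, d, a, N, P, k, hS, hw, hf, hu, hd, haN, hx⟩ := hL
  obtain ⟨r, p, hr, hS⟩ := exists_cert hS
  have hw := PT_of_TM2 PT_encz hw
  have hf := PT_of_TM2' PT_encz hf
  have hu := PT_of_TM2 PT_encz hu
  have hd := PT_of_TM2' PT_encz hd
  obtain ⟨Bd, hBd⟩ := query_bound hw
  obtain ⟨P', hP'⟩ : ∃ P' : Polynomial ℕ, ∀ n, P'.eval n =
      p.eval (P.eval n + Bd.eval (n + 3 * (k * (n ^ c + 1)))) := by
    refine ⟨p.comp (P + Bd.comp (Polynomial.X + 3 * (Polynomial.C k *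
      (Polynomial.X ^ c + 1)))), fun n => ?_⟩
    simp [Polynomial.eval_comp]
  -- the query
  obtain ⟨Qf, hQf⟩ : ∃ Qf : (List Bool × List Bool) × (ℕ × ℕ) → List Bool, Qf = fun z =>
    qry w u f (k * (z.1.1.length ^ c + 1)) (P.eval z.1.1.length) (z.1.1, (unpair z.1.2).1) z.2.2
      ((str z.2.1).take (k * (z.1.1.length ^ c + 1))) := ⟨_, rfl⟩
  have hB {β : Type} [DEnc β] {x : β → List Bool} (hx : PT x) :
      PT (fun z => k * ((x z).length ^ c + 1)) :=
    PT.nmul (PT.const k) (PT.nsucc (PT_npow (PT.length hx) c))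
  have hQfPT : PT Qf := by
    rw [hQf]
    exact PT_qry hw hu hf (PT.pair PT.fst.p1 (PT_unpair.comp PT.fst.p2).p1) (hB PT.fst.p1)
      (PT_peval P (PT.length PT.fst.p1)) PT.snd.p2 (PT_take (hB PT.fst.p1) (PT_str PT.snd.p1))
  obtain ⟨V, hV⟩ : ∃ V : ((List Bool × List Bool) × (ℕ × ℕ)) × List Bool → Bool, V = fun z =>
    decide (z.2.length ≤ p.eval (Qf z.1).length) && r (Qf z.1, z.2) := ⟨_, rfl⟩
  have hVO : OPT O V := by
    rw [hV]
    exact (OPT.of_PT (PT.nle (PT.length PT.snd) (PT_peval p (PT.length (hQfPT.comp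
      PT.fst))))).band (hr.comp_PT (PT.pair (hQfPT.comp PT.fst) PT.snd))
  obtain ⟨D, hD⟩ : ∃ D : (List Bool × List Bool) × List Bool → Bool, D = fun z =>
    d ((z.1.1, (unpair z.1.2).1), ((stepL u f (k * (z.1.1.length ^ c + 1))
      (z.1.1, (unpair z.1.2).1) z.2)^[vlc z.2.length (unpair z.1.2).2] ([], [])).1) := ⟨_, rfl⟩
  have hDO : OPT O D := by
    rw [hD]
    have h1 : PT (fun z : (List Bool × List Bool) × List Bool =>
      (z.1.1, (unpair z.1.2).1)) := PT.pair PT.fst.p1 (PT_unpair.comp PT.fst.p2).p1
    exact OPT.of_PT (hd.comp (PT.pair h1 (PT_stepL_iter hu hf h1 (hB PT.fst.p1) PT.snd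
      (PT_vlc (PT.length PT.snd) (PT_unpair.comp PT.fst.p2).p2)).p1))
  refine ⟨fun z => V z = true, fun z => D z = true, fun n => encPair (a n, str (N n)), P',
    3 * k + 3, polyTime_of_OPT PT_decv decv_encv meas_encv hVO,
    polyTime_of_OPT MP_92db0f_lc_gold.PT_dec3 (fun z => MP_92db0f_lc_gold.dec3_enc3 z) meas_encz
      hDO, ?_, ?_⟩
  · intro n
    obtain ⟨h1, h2⟩ := haN n
    have h3 := length_str_le h2
    have h4 : (3 * k + 3) * (n ^ c + 1) = 3 * (k * (n ^ c + 1)) + 3 * (n ^ c + 1) := by ring
    rw [length_encPair, h4]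
    omega
  · intro x M hM
    obtain ⟨hb, hxL⟩ := hx x
    obtain ⟨h1, h2⟩ := haN x.length
    obtain ⟨B, hB'⟩ : ∃ B, B = k * (x.length ^ c + 1) := ⟨_, rfl⟩
    have hMB : 2 ^ (B + 1) ≤ M := by
      rw [hM, hB']
      apply Nat.pow_le_pow_right (by norm_num)
      have h4 : (3 * k + 3) * (x.length ^ c + 1) = 3 * (k * (x.length ^ c + 1)) +
        3 * (x.length ^ c + 1) := by ring
      rw [h4]
      omega
    have hNM : N x.length ≤ M := by
      rw [← hB'] at h2
      rw [pow_succ] at hMB
      omega
    rw [hxL]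
    obtain ⟨l, hl⟩ : ∃ l : List Bool, l = (List.range M).map fun j => decide (∃ y : List Bool,
      y.length ≤ P'.eval x.length ∧
        V (((x, encPair (a x.length, str (N x.length))), (j, M)), y) = true) := ⟨_, rfl⟩
    rw [← hl]
    beta_reduce
    have hll : l.length = M := by rw [hl, List.length_map, List.length_range]
    have hN : vlc l.length (str (N x.length)) = N x.length := by
      rw [vlc_eq, vl_str, hll]
      omega
    have hDl : D ((x, encPair (a x.length, str (N x.length))), l) =
        d ((x, a x.length), ((stepL u f B (x, a x.length) l)^[N x.length] ([], [])).1) := by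
      rw [hD]
      dsimp only
      rw [unpair_enc]
      dsimp only
      rw [hN, ← hB']
    rw [hDl]
    have hlook : ∀ m₀ : List Bool, m₀.length ≤ B → l.getD (vlc l.length m₀) false =
        decide (qry w u f B (P.eval x.length) (x, a x.length) M m₀ ∈ S) := by
      intro m₀ hm₀
      have h3 := vl_lt m₀
      have h4 : 2 ^ (m₀.length + 1) ≤ 2 ^ (B + 1) := Nat.pow_le_pow_right (by norm_num) (by omega)
      have h5 : vlc l.length m₀ = vl m₀ := by
        rw [vlc_eq, hll]
        omega
      rw [h5, hl, List.getD_eq_getElem _ _ (by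
        rw [List.length_map, List.length_range]; omega), List.getElem_map, List.getElem_range,
        Bool.eq_iff_iff, decide_eq_true_iff, decide_eq_true_iff]
      have h6 : Qf ((x, encPair (a x.length, str (N x.length))), (vl m₀, M)) =
          qry w u f B (P.eval x.length) (x, a x.length) M m₀ := by
        rw [hQf]
        dsimp only
        rw [unpair_enc, str_vl, ← hB', List.take_of_length_le hm₀]
      have h7 : (qry w u f B (P.eval x.length) (x, a x.length) M m₀).length ≤
          P.eval x.length + Bd.eval (x.length + 3 * (k * (x.length ^ c + 1))) := by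
        unfold qry
        rw [List.length_append]
        obtain ⟨g1, g2⟩ := wlk_bound (w := w) (u := u) (f := f) (B := B)
          (R := P.eval x.length) (x, a x.length) m₀ M
        have g3 := hBd x (a x.length) ((wlk w u f B (P.eval x.length) (x, a x.length))^[M]
          (m₀, [])).1 (x.length + 3 * (k * (x.length ^ c + 1))) (by
            rw [← hB'] at h1 ⊢
            omega)
        omega
      rw [hV]
      simp only [h6, Bool.and_eq_true, decide_eq_true_eq]
      rw [hS _]
      constructor
      · rintro ⟨y, -, hy⟩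
        exact ⟨y, hy⟩
      · rintro ⟨y, hy1, hy2⟩
        refine ⟨y, ?_, hy1, hy2⟩
        rw [hP']
        exact hy1.trans (evalMono p h7)
    have hfin := (stepL_eq (R := P.eval x.length) (T := M) (N := N x.length) (by
      rw [hB']
      exact hb) hNM hlook (N x.length) le_rfl).1
    rw [hfin]

end Pool.Agent.FSP
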