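import Pool.Agent.FSP.Sim
import Pool.Agent.MP_92db0f_lc.Long
import Pool.Agent.MP_92db0f_lc_alg.Final

/-!
Every language in `P` with an oracle in `NP` is decided in space `O(n ^ c)` for some `c`.
-/

set_option autoImplicit false

namespace Pool.Agent.FSP

open Lib.helper60 Function Turing Computability Pool.Agent.LCB
open MP_92db0f_lc (poly_le_pow_add PT_encPair)
open MP_92db0f_lc_alg (answers PolyTime InP InUP InPUP)
open MP_92db0f_lc_gold (TM_of_str TM_of_bool)
open MP_92db0f_lc_thr (PT_of_TM2 PT_of_TM2' PT_encPair')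

/-- the machine that remembers all answers -/
lemma step_answers (S : Set (List Bool)) (q : List Bool × List Bool → List Bool)
    (xa : List Bool × List Bool) (i : ℕ) :
    (step S (fun z => q (z.1.1, z.2)) (fun _ => true)
      (fun z => z.2.tail ++ [z.2.headD false]) xa)^[i] ([], []) = (answers S q xa.1 i, []) := by
  classical
  induction i with
  | zero => rfl
  | succ i ih =>
    rw [iterate_succ_apply', ih, answers]
    unfold step
    rw [if_pos rfl]
    rfl

/-- **Polynomial time is space `O(n ^ c)` for some `c`.** -/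
theorem exists_inSpace {O S L : Set (List Bool)} (hS : InNP O S) (hL : InP S L) :
    ∃ c, InSpace c O L := by
  obtain ⟨q, d, P, hq, hd, hx⟩ := hL
  have he : PT (fun z : List Bool × List Bool => encPair (z.1, z.2)) := PT_encPair PT.fst PT.snd
  have hq := PT_of_TM2 he hq
  have hd := PT_of_TM2' he hd
  obtain ⟨c, hc⟩ := poly_le_pow_add P
  refine ⟨c, S, fun z => q (z.1.1, z.2), fun _ => true, fun z => z.2.tail ++ [z.2.headD false],
    fun z => d (z.1.1, z.2), fun _ => [], fun n => P.eval n, 0, c + 1, hS,
    TM_of_str (hq.comp (PT.pair PT.fst.p1 PT.snd)), TM_of_bool (PT.const true),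
    TM_of_str (PT.append (PT.tail PT.snd) (PT.cons (PT.headD PT.snd (PT.const false))
      (PT.const []))), TM_of_bool (hd.comp (PT.pair PT.fst.p1 PT.snd)), ?_, ?_⟩
  · intro n
    have h1 : P.eval n ≤ (c + 1) * (n ^ c + 1) := by
      have h1 := hc n
      have h2 : (c + 1) * (n ^ c + 1) = c * n ^ c + n ^ c + c + 1 := by ring
      omega
    exact ⟨Nat.zero_le _, h1.trans Nat.lt_two_pow_self.le⟩
  · intro x
    refine ⟨fun t ht => ?_, ?_⟩
    · rw [step_answers]
      have h1 : P.eval x.length ≤ (c + 1) * (x.length ^ c + 1) := by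
        have h1 := hc x.length
        have h2 : (c + 1) * (x.length ^ c + 1) = c * x.length ^ c + x.length ^ c + c + 1 := by ring
        omega
      refine ⟨?_, Nat.zero_le _⟩
      have h2 : (answers S q x t).length = t := MP_92db0f_lc_alg.answers_length S q x t
      dsimp only at ht ⊢
      omega
    · rw [step_answers]
      exact hx x

/-- Languages in `UP` are in `NP`. -/
lemma inNP_of_inUP {O L : Set (List Bool)} (h : InUP O L) : InNP O L := by
  obtain ⟨R, P, hR, h⟩ := h
  exact ⟨R, P, hR, fun x => (h x).1⟩

lemma exists_inSpace_of_inPUP {O L : Set (List Bool)} (h : InPUP O L) : ∃ c, InSpace c O L := by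
  obtain ⟨B, hB, hL⟩ := h
  exact exists_inSpace (inNP_of_inUP hB) hL

end Pool.Agent.FSP
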